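import Mathlib

set_option autoImplicit false

namespace Pool.Agent.Results.MP_1de1cd_co.Holds

open Finset SimpleGraph

/-- Every graph on `n` vertices contains a triangle or its complement contains a copy of `G`. -/
def Arrows {k : ℕ} (G : SimpleGraph (Fin k)) (n : ℕ) : Prop :=
  ∀ H : SimpleGraph (Fin n), ¬ H.CliqueFree 3 ∨ G ⊑ Hᶜ

/-- The Ramsey number `R(3, G)`. -/
noncomputable def R3 {k : ℕ} (G : SimpleGraph (Fin k)) : ℕ := sInf {n | Arrows G n}

def mf (n r : ℕ) : ℕ := (n ^ 2 - (n % r) ^ 2) * (r - 1) / (2 * r) + (n % r) * (n % r - 1) / 2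

def B (k w : ℕ) : ℕ := k + mf k w

def sz (q r t : ℕ) : ℕ := q + if t < r then 1 else 0

def chk (q r w : ℕ) : Bool :=
  decide ((B (q * w + min r w) w - 1) * (B (q * (w + 1) + r) (w + 1)).descFactorial (sz q r w) <
    B (q * (w + 1) + r) (w + 1) *
      (B (q * (w + 1) + r) (w + 1) - (q * (w + 1) + r)).descFactorial (sz q r w))

def allchk : Bool := (List.range 149).all fun w => (List.range (149 / (w + 1) + 1)).all fun q =>
  (List.range (w + 2)).all fun r => w == 0 || q == 0 || chk q r w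

theorem allchk_true : allchk = true := by decide +kernel

theorem chk_true {q r w : ℕ} (hw : 1 ≤ w) (hq : 1 ≤ q) (hr : r ≤ w + 1)
    (hk : q * (w + 1) + r < 149) : chk q r w = true := by
  have h := allchk_true
  simp only [allchk, List.all_eq_true, List.mem_range] at h
  have h1 : w < 149 := by nlinarith
  have h2 : q < 149 / (w + 1) + 1 := by
    rw [Nat.lt_succ_iff, Nat.le_div_iff_mul_le (by omega)]; omega
  have := h w h1 q h2 r (by omega)
  simp only [Bool.or_eq_true, beq_iff_eq] at this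
  rcases this with (h | h) | h
  · omega
  · omega
  · exact h

variable {V : Type} [DecidableEq V]

def Parts (H : SimpleGraph V) (S : Finset V) (s : ℕ → ℕ) (w : ℕ) : Prop :=
  ∃ P : ℕ → Finset V, (∀ t < w, P t ⊆ S ∧ #(P t) = s t) ∧
    ∀ t < w, ∀ u < w, t ≠ u → ∀ x ∈ P t, ∀ y ∈ P u, x ≠ y ∧ ¬ H.Adj x y

theorem Parts.ext {H : SimpleGraph V} {S S' A : Finset V} {s s' : ℕ → ℕ} {w : ℕ}
    (h : Parts H S' s' w) (hs : ∀ t < w, s' t = s t) (hS : S' ⊆ S) (hA : A ⊆ S) (hc : #A = s w)
    (hx : ∀ x ∈ S', ∀ y ∈ A, x ≠ y ∧ ¬ H.Adj x y) : Parts H S s (w + 1) := by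
  obtain ⟨P, h1, h2⟩ := h
  refine ⟨fun t => if t = w then A else P t, fun t ht => ?_, fun t ht u hu htu x hxt y hyu => ?_⟩
  · by_cases e : t = w
    · subst e; simp [hA, hc]
    · simp only [e, if_false]
      exact ⟨(h1 t (by omega)).1.trans hS, (h1 t (by omega)).2.trans (hs t (by omega))⟩
  · by_cases e : t = w <;> by_cases e' : u = w
    · omega
    · simp only [e, e', if_true, if_false] at hxt hyu
      have := hx y ((h1 u (by omega)).1 hyu) x hxt
      exact ⟨this.1.symm, fun h => this.2 h.symm⟩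
    · simp only [e, e', if_true, if_false] at hxt hyu
      exact hx x ((h1 t (by omega)).1 hxt) y hyu
    · simp only [e, e', if_false] at hxt hyu
      exact h2 t (by omega) u (by omega) htu x hxt y hyu

theorem parts_indep (H : SimpleGraph V) (s : ℕ → ℕ) (w : ℕ) : ∀ T : Finset V,
    (∀ x ∈ T, ∀ y ∈ T, ¬ H.Adj x y) → ∑ t ∈ range w, s t ≤ #T → Parts H T s w := by
  induction w with
  | zero => intro T _ _; exact ⟨fun _ => ∅, by simp, by simp⟩
  | succ w ih =>
    intro T hT hc
    rw [sum_range_succ] at hc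
    obtain ⟨A, hA, hAc⟩ := exists_subset_card_eq (s := T) (n := s w) (by omega)
    refine (ih (T \ A) (fun x hx y hy => hT x (sdiff_subset hx) y (sdiff_subset hy)) ?_).ext
      (fun _ _ => rfl) sdiff_subset hA hAc fun x hx y hy => ⟨?_, hT x (sdiff_subset hx) y (hA hy)⟩
    · rw [card_sdiff_of_subset hA]; omega
    · rintro rfl; exact (mem_sdiff.mp hx).2 hy

theorem sum_sz (q r w : ℕ) : ∑ t ∈ range w, sz q r t = q * w + min r w := by
  induction w with
  | zero => simp
  | succ w ih =>
    rw [sum_range_succ, ih, sz, mul_add]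
    split_ifs <;> omega

theorem main (H : SimpleGraph V) (hH : H.CliqueFree 3) (q : ℕ) (hq : 1 ≤ q) (w : ℕ) :
    ∀ r ≤ w + 1, q * (w + 1) + r < 149 → ∀ S : Finset V, B (q * (w + 1) + r) (w + 1) ≤ #S →
      Parts H S (sz q r) (w + 1) := by
  classical
  induction w with
  | zero =>
    intro r hr _ S hS
    obtain ⟨A, hA, hAc⟩ := exists_subset_card_eq (s := S) (n := sz q r 0) (by
      simp only [B, sz] at hS ⊢
      split_ifs <;> omega)
    exact Parts.ext (S' := ∅) (s' := sz q r) ⟨fun _ => ∅, by simp, by simp⟩ (fun _ _ => rfl)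
      (empty_subset _) hA hAc (by simp)
  | succ w ih =>
    intro r hr hk S0 hS0
    obtain ⟨S, hSS, hS⟩ := exists_subset_card_eq hS0
    have mono : Parts H S (sz q r) (w + 1 + 1) → Parts H S0 (sz q r) (w + 1 + 1) :=
      fun ⟨P, h1, h2⟩ => ⟨P, fun t ht => ⟨(h1 t ht).1.trans hSS, (h1 t ht).2⟩, h2⟩
    refine mono ?_
    set k := q * (w + 1 + 1) + r with hkk
    by_cases hdeg : ∃ x ∈ S, k ≤ #(S.filter (H.Adj x))
    · obtain ⟨x, _, hx⟩ := hdeg
      obtain ⟨P, h1, h2⟩ := parts_indep H (sz q r) (w + 1 + 1) (S.filter (H.Adj x))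
        (fun y hy z hz hyz => hH {x, y, z} (is3Clique_triple_iff.mpr
          ⟨(mem_filter.mp hy).2, (mem_filter.mp hz).2, hyz⟩)) (by rw [sum_sz]; omega)
      exact ⟨P, fun t ht => ⟨(h1 t ht).1.trans (filter_subset _ _), (h1 t ht).2⟩, h2⟩
    push Not at hdeg
    set p := sz q r (w + 1) with hp
    set R := B (q * (w + 1) + min r (w + 1)) (w + 1) with hR
    have hc := chk_true (q := q) (r := r) (w := w + 1) (by omega) hq hr hk
    simp only [chk, decide_eq_true_eq] at hc
    rw [← hkk, ← hp, ← hR, ← hS, Nat.descFactorial_eq_factorial_mul_choose,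
      Nat.descFactorial_eq_factorial_mul_choose] at hc
    have hc' : (#S).choose p * (R - 1) < #S * (#S - k).choose p := by
      by_contra hn
      push Not at hn
      have := Nat.mul_le_mul_left p.factorial hn
      nlinarith
    have hex : ∃ A ∈ powersetCard p S,
        R ≤ #(S.filter fun x => ∀ y ∈ A, x ≠ y ∧ ¬ H.Adj x y) := by
      by_contra hn
      push Not at hn
      have := card_mul_le_card_mul (s := S) (t := powersetCard p S)
        (fun x A => ∀ y ∈ A, x ≠ y ∧ ¬ H.Adj x y) (m := (#S - k).choose p) (n := R - 1)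
        (fun x hx => ?_) (fun A hA => ?_)
      · rw [card_powersetCard] at this; omega
      · have h1 : #S - k ≤ #(S \ insert x (S.filter (H.Adj x))) := by
          have := le_card_sdiff (insert x (S.filter (H.Adj x))) S
          have := card_insert_le x (S.filter (H.Adj x))
          have := hdeg x hx
          omega
        refine (Nat.choose_le_choose p h1).trans ?_
        rw [← card_powersetCard]
        refine card_le_card fun A hA => ?_
        rw [mem_powersetCard] at hA
        rw [mem_bipartiteAbove, mem_powersetCard]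
        refine ⟨⟨hA.1.trans sdiff_subset, hA.2⟩, fun y hy => ?_⟩
        have := mem_sdiff.mp (hA.1 hy)
        simp only [mem_insert, mem_filter, not_or, not_and] at this
        exact ⟨fun h => this.2.1 h.symm, this.2.2 this.1⟩
      · have := hn A hA
        refine Nat.le_sub_one_of_lt (lt_of_eq_of_lt ?_ this)
        congr 1
    obtain ⟨A, hA, hAR⟩ := hex
    rw [mem_powersetCard] at hA
    refine (ih (min r (w + 1)) (min_le_right _ _) (by nlinarith [min_le_left r (w + 1)]) _ hAR).ext
      (fun t ht => ?_) (filter_subset _ _) hA.1 hA.2 fun x hx => (mem_filter.mp hx).2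
    simp only [sz, lt_min_iff, ht, and_true]

theorem arrows (k w : ℕ) (hw : 1 ≤ w) (hwk : w ≤ k) (hk : k < 149) :
    Arrows (turanGraph k w) (k + #(turanGraph k w).edgeFinset) := by
  intro H
  by_cases hH : H.CliqueFree 3
  swap
  · exact Or.inl hH
  right
  obtain ⟨w, rfl⟩ : ∃ v, w = v + 1 := ⟨w - 1, by omega⟩
  have hd : k / (w + 1) * (w + 1) + k % (w + 1) = k := Nat.div_add_mod' k (w + 1)
  have hm : k % (w + 1) < w + 1 := Nat.mod_lt _ (by omega)
  obtain ⟨P, h1, h2⟩ := main H hH (k / (w + 1)) (Nat.div_pos hwk (by omega)) w (k % (w + 1))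
    hm.le (by omega) univ (by
      rw [hd, card_univ, Fintype.card_fin, card_edgeFinset_turanGraph, Nat.choose_two_right]
      exact le_rfl)
  have hi : ∀ i : Fin k, (i : ℕ) / (w + 1) < #(P (i % (w + 1))) := by
    intro i
    rw [(h1 _ (Nat.mod_lt _ (by omega))).2, sz]
    have e : (i : ℕ) / (w + 1) * (w + 1) + i % (w + 1) = i := Nat.div_add_mod' i (w + 1)
    have := i.2
    have h3 : (i : ℕ) / (w + 1) ≤ k / (w + 1) := Nat.div_le_div_right this.le
    split_ifs with h
    · omega
    · rcases h3.lt_or_eq with h4 | h4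
      · omega
      · rw [h4] at e; omega
  let f : Fin k → Fin (k + #(turanGraph k (w + 1)).edgeFinset) := fun i =>
    ((P (i % (w + 1))).equivFin.symm ⟨i / (w + 1), hi i⟩).1
  have hf : ∀ i : Fin k, f i ∈ P ((i : ℕ) % (w + 1)) := fun i => Subtype.prop _
  have hne : ∀ i j : Fin k, (i : ℕ) % (w + 1) ≠ j % (w + 1) → f i ≠ f j ∧ ¬ H.Adj (f i) (f j) :=
    fun i j h => h2 _ (Nat.mod_lt _ (by omega)) _ (Nat.mod_lt _ (by omega)) h _ (hf i) _ (hf j)
  refine ⟨⟨⟨f, fun {i j} h => ?_⟩, fun (i : Fin k) (j : Fin k) hij => ?_⟩⟩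
  · rw [compl_adj]; exact hne i j h
  · have hij' : f i = f j := hij
    have e : (i : ℕ) % (w + 1) = j % (w + 1) := by
      by_contra h; exact (hne i j h).1 hij'
    have key : ∀ (a b : ℕ) (x y : ℕ) (hx : x < #(P a)) (hy : y < #(P b)), a = b →
        ((P a).equivFin.symm ⟨x, hx⟩).1 = ((P b).equivFin.symm ⟨y, hy⟩).1 → x = y := by
      rintro a _ x y hx hy rfl h
      have := (P a).equivFin.symm.injective (Subtype.ext h)
      exact congrArg Fin.val this
    have e2 := key _ _ _ _ (hi i) (hi j) e hij'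
    apply Fin.ext
    rw [← Nat.div_add_mod' i (w + 1), ← Nat.div_add_mod' j (w + 1), e, e2]

theorem result (k w : ℕ) (hw : 2 ≤ w) (hwk : w ≤ k)
    (hl : Real.log k < (3 * (w : ℝ) - 1) / (w - 1)) :
    Arrows (turanGraph k w) (k + #(turanGraph k w).edgeFinset) ∧
      R3 (turanGraph k w) ≤ k + #(turanGraph k w).edgeFinset := by
  have hw' : (2 : ℝ) ≤ w := by exact_mod_cast hw
  have h5 : (3 * (w : ℝ) - 1) / (w - 1) ≤ 5 := by
    rw [div_le_iff₀ (by linarith)]; linarith
  have hk0 : (0 : ℝ) < k := by exact_mod_cast (by omega : 0 < k)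
  have h1 : (k : ℝ) < Real.exp 5 := (Real.log_lt_iff_lt_exp hk0).mp (hl.trans_le h5)
  have h2 : Real.exp 5 < 149 := by
    have e : Real.exp 5 = Real.exp 1 ^ 5 := by rw [← Real.exp_nat_mul]; norm_num
    rw [e]
    calc Real.exp 1 ^ 5 ≤ 2.7182818286 ^ 5 :=
          pow_le_pow_left₀ (Real.exp_pos 1).le Real.exp_one_lt_d9.le 5
      _ < 149 := by norm_num
  have hk : k < 149 := by exact_mod_cast h1.trans h2
  have := arrows k w (by omega) hwk hk
  exact ⟨this, Nat.sInf_le this⟩

end Pool.Agent.Results.MP_1de1cd_co.Holds
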